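import Pool.Agent.TKS.Defs

/-!
Decomposition of a vertex set into indecomposable parts.
-/

open Finset

namespace Pool.Agent.TwoDens.K3K

open Pool.Agent.TwoDens Pool.Agent.TwoDens.RK Pool.Agent.TwoDens.DD Pool.Agent.TwoDens.TS

variable {V : Type*} [DecidableEq V] {G : SimpleGraph V}

/-- `A` is not the union of two nonempty parts whose independence numbers add up -/
def Ind (G : SimpleGraph V) (A : Finset V) : Prop :=
  A.Nonempty ∧ ∀ B ⊆ A, B.Nonempty → B ≠ A → al G A + 1 ≤ al G B + al G (A \ B)

/-- a partition of `Y` into indecomposable parts with additive independence number -/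
structure Dec (G : SimpleGraph V) (Y : Finset V) (P : Finset (Finset V)) : Prop where
  ind : ∀ A ∈ P, Ind G A
  disj : ∀ A ∈ P, ∀ B ∈ P, A ≠ B → Disjoint A B
  un : P.biUnion id = Y
  sum : ∑ A ∈ P, al G A = al G Y

theorem Dec.sub {Y : Finset V} {P : Finset (Finset V)} (h : Dec G Y P) {A : Finset V}
    (hA : A ∈ P) : A ⊆ Y := by
  rw [← h.un]
  exact subset_biUnion_of_mem id hA

theorem exists_dec (Y : Finset V) : ∃ P, Dec G Y P := by
  induction hn : Y.card using Nat.strong_induction_on generalizing Y with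
  | _ n ih =>
    subst hn
    by_cases h0 : Y = ∅
    · subst h0
      exact ⟨∅, by simp, by simp, by simp, by simp [al_empty]⟩
    by_cases h1 : Ind G Y
    · refine ⟨{Y}, ?_, ?_, by simp, by simp⟩
      · intro A hA
        rw [mem_singleton] at hA
        rwa [hA]
      · intro A hA B hB hne
        rw [mem_singleton] at hA hB
        exact absurd (hA.trans hB.symm) hne
    have hne : Y.Nonempty := nonempty_iff_ne_empty.2 h0
    have h2 : ∃ B ⊆ Y, B.Nonempty ∧ B ≠ Y ∧ al G B + al G (Y \ B) ≤ al G Y := by
      by_contra hcon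
      push Not at hcon
      exact h1 ⟨hne, fun B hB hBn hBY => hcon B hB hBn hBY⟩
    obtain ⟨B, hB, hBn, hBY, hle⟩ := h2
    have hcB : B.card < Y.card := card_lt_card (Finset.ssubset_iff_subset_ne.2 ⟨hB, hBY⟩)
    have hcB' : (Y \ B).card < Y.card := by
      have := card_sdiff_add_card_eq_card hB
      have := hBn.card_pos
      omega
    obtain ⟨P, hP⟩ := ih _ hcB B rfl
    obtain ⟨Q, hQ⟩ := ih _ hcB' (Y \ B) rfl
    have hdd : ∀ A ∈ P, ∀ C ∈ Q, Disjoint A C := by
      intro A hA C hC
      exact Disjoint.mono (hP.sub hA) (hQ.sub hC) disjoint_sdiff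
    have hPQ : Disjoint P Q := by
      rw [Finset.disjoint_left]
      intro A hA hA'
      have h3 := hdd A hA A hA'
      rw [disjoint_self] at h3
      exact (hP.ind A hA).1.ne_empty h3
    refine ⟨P ∪ Q, ?_, ?_, ?_, ?_⟩
    · intro A hA
      rcases mem_union.1 hA with hA | hA
      · exact hP.ind A hA
      · exact hQ.ind A hA
    · intro A hA C hC hne
      rcases mem_union.1 hA with hA | hA <;> rcases mem_union.1 hC with hC | hC
      · exact hP.disj A hA C hC hne
      · exact hdd A hA C hC
      · exact (hdd C hC A hA).symm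
      · exact hQ.disj A hA C hC hne
    · rw [union_biUnion, hP.un, hQ.un]
      exact union_sdiff_of_subset hB
    · rw [sum_union hPQ, hP.sum, hQ.sum]
      have h4 := al_union_le (G := G) B (Y \ B)
      rw [union_sdiff_of_subset hB] at h4
      omega

theorem al_singleton (v : V) : al G {v} = 1 := by
  have h1 := al_pos (G := G) (singleton_nonempty v)
  have h2 := al_le_card (G := G) {v}
  rw [card_singleton] at h2
  omega

/-- in an indecomposable set every vertex is avoided by a maximum independent set -/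
theorem Ind.av1 {A : Finset V} (h : Ind G A) (h2 : 2 ≤ A.card) {v : V} (hv : v ∈ A) :
    al G (A \ {v}) = al G A := by
  have h3 := h.2 {v} (singleton_subset_iff.2 hv) (singleton_nonempty v) (by
    intro h4
    rw [← h4, card_singleton] at h2
    omega)
  rw [al_singleton] at h3
  have h4 := al_sdiff_le (G := G) A {v}
  omega

open Classical in
/-- capacity of a part -/
noncomputable def cap (G : SimpleGraph V) (A : Finset V) : ℕ :=
  if A.card ≤ 1 then 0
  else if ∃ x ∈ A, ∃ y ∈ A, x ≠ y ∧ al G (A \ {x, y}) < al G A then 1 else 2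

theorem Ind.avoid {A : Finset V} (h : Ind G A) {T : Finset V} (hT : T ⊆ A)
    (hc : T.card ≤ cap G A) : al G (A \ T) = al G A := by
  classical
  by_cases h1 : A.card ≤ 1
  · have h2 : cap G A = 0 := by
      unfold cap
      rw [if_pos h1]
    rw [h2] at hc
    have h3 : T = ∅ := card_eq_zero.1 (Nat.le_zero.1 hc)
    rw [h3, sdiff_empty]
  by_cases h2 : ∃ x ∈ A, ∃ y ∈ A, x ≠ y ∧ al G (A \ {x, y}) < al G A
  · have h3 : cap G A = 1 := by
      unfold cap
      rw [if_neg h1, if_pos h2]
    rw [h3] at hc
    rcases Nat.le_one_iff_eq_zero_or_eq_one.1 hc with h4 | h4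
    · rw [card_eq_zero.1 h4, sdiff_empty]
    · obtain ⟨v, rfl⟩ := card_eq_one.1 h4
      exact h.av1 (by omega) (singleton_subset_iff.1 hT)
  · have h3 : cap G A = 2 := by
      unfold cap
      rw [if_neg h1, if_neg h2]
    rw [h3] at hc
    have h5 : T.card = 0 ∨ T.card = 1 ∨ T.card = 2 := by omega
    rcases h5 with h4 | h4 | h4
    · rw [card_eq_zero.1 h4, sdiff_empty]
    · obtain ⟨v, rfl⟩ := card_eq_one.1 h4
      exact h.av1 (by omega) (singleton_subset_iff.1 hT)
    · obtain ⟨x, y, hxy, rfl⟩ := card_eq_two.1 h4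
      push Not at h2
      have h6 := h2 x (hT (mem_insert_self _ _)) y (hT (by simp)) hxy
      have h7 := al_sdiff_le (G := G) A {x, y}
      omega

end Pool.Agent.TwoDens.K3K
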