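import Pool.Agent.K3K.KL

/-!
The extension of an indecomposable vertex set by a new vertex that is joined to a blocking set.
-/

open Finset

namespace Pool.Agent.TwoDens.K3K

open Pool.Agent.K3K Pool.Agent.TwoDens Pool.Agent.TwoDens.RK Pool.Agent.TwoDens.DD Pool.Agent.TwoDens.TS

universe u

variable {V : Type u}

/-- `G` with a new vertex joined exactly to `X` -/
def ext (G : SimpleGraph V) (X : Finset V) : SimpleGraph (WithTop V) where
  Adj p q := (∃ a b : V, p = (a : WithTop V) ∧ q = (b : WithTop V) ∧ G.Adj a b) ∨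
    (∃ a ∈ X, p = (a : WithTop V) ∧ q = ⊤) ∨ (∃ b ∈ X, p = ⊤ ∧ q = (b : WithTop V))
  symm := ⟨by
    rintro p q (⟨a, b, ha, hb, h⟩ | ⟨a, ha, h1, h2⟩ | ⟨b, hb, h1, h2⟩)
    · exact Or.inl ⟨b, a, hb, ha, h.symm⟩
    · exact Or.inr (Or.inr ⟨a, ha, h2, h1⟩)
    · exact Or.inr (Or.inl ⟨b, hb, h2, h1⟩)⟩
  loopless := ⟨by
    rintro p (⟨a, b, ha, hb, h⟩ | ⟨a, ha, h1, h2⟩ | ⟨b, hb, h1, h2⟩)
    · have h3 : a = b := WithTop.coe_injective (ha.symm.trans hb)
      rw [h3] at h
      exact h.ne rfl
    · exact WithTop.coe_ne_top (h1.symm.trans h2)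
    · exact WithTop.coe_ne_top (h2.symm.trans h1)⟩

/-- the inclusion -/
def inc : V ↪ WithTop V := ⟨fun a => (a : WithTop V), WithTop.coe_injective⟩

theorem inc_ne (a : V) : inc a ≠ (⊤ : WithTop V) := WithTop.coe_ne_top

theorem mem_inc {S : Finset V} {a : V} : (a : WithTop V) ∈ S.map inc ↔ a ∈ S := by
  constructor
  · intro h
    obtain ⟨b, hb, hab⟩ := mem_map.1 h
    have h2 : b = a := WithTop.coe_injective hab
    rwa [← h2]
  · intro h
    exact mem_map.2 ⟨a, h, rfl⟩

theorem top_notMem {S : Finset V} : (⊤ : WithTop V) ∉ S.map inc := by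
  intro h
  obtain ⟨b, hb, hab⟩ := mem_map.1 h
  exact inc_ne b hab

theorem ext_coe {G : SimpleGraph V} {X : Finset V} {a b : V} :
    (ext G X).Adj (a : WithTop V) (b : WithTop V) ↔ G.Adj a b := by
  constructor
  · rintro (⟨c, d, hc, hd, h⟩ | ⟨c, hc, h1, h2⟩ | ⟨c, hc, h1, h2⟩)
    · rwa [WithTop.coe_injective hc, WithTop.coe_injective hd]
    · exact absurd h2 WithTop.coe_ne_top
    · exact absurd h1 WithTop.coe_ne_top
  · intro h
    exact Or.inl ⟨a, b, rfl, rfl, h⟩

theorem ext_top {G : SimpleGraph V} {X : Finset V} {a : V} :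
    (ext G X).Adj (a : WithTop V) ⊤ ↔ a ∈ X := by
  constructor
  · rintro (⟨c, d, hc, hd, h⟩ | ⟨c, hc, h1, h2⟩ | ⟨c, hc, h1, h2⟩)
    · exact absurd hd.symm WithTop.coe_ne_top
    · rwa [WithTop.coe_injective h1]
    · exact absurd h1 WithTop.coe_ne_top
  · intro h
    exact Or.inr (Or.inl ⟨a, h, rfl, rfl⟩)

variable [DecidableEq V]

/-- an independent set of the extension without the new vertex -/
theorem al_pull {G : SimpleGraph V} {X S : Finset V} {I : Finset (WithTop V)}
    (hI : I ⊆ S.map inc) (hi : (ext G X).IsIndepSet (I : Set (WithTop V))) :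
    I.card ≤ al G S := by
  classical
  have h1 : I = (S.filter (fun a : V => (a : WithTop V) ∈ I)).map inc := by
    ext p
    rw [mem_map]
    constructor
    · intro hp
      obtain ⟨a, ha, hap⟩ := mem_map.1 (hI hp)
      exact ⟨a, mem_filter.2 ⟨ha, by
        have h2 : (a : WithTop V) = p := hap
        rwa [h2]⟩, hap⟩
    · rintro ⟨a, ha, hap⟩
      have h2 : (a : WithTop V) = p := hap
      rw [← h2]
      exact (mem_filter.1 ha).2
  rw [h1, card_map]
  refine le_al (filter_subset _ _) ?_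
  intro a ha b hb hab hadj
  rw [mem_coe, mem_filter] at ha hb
  exact hi (mem_coe.2 ha.2) (mem_coe.2 hb.2) (fun h => hab (WithTop.coe_injective h))
    (ext_coe.2 hadj)

theorem al_push {G : SimpleGraph V} {X S : Finset V} {B : Finset (WithTop V)}
    (h : S.map inc ⊆ B) : al G S ≤ al (ext G X) B := by
  classical
  obtain ⟨I, hI, hi, hc⟩ := exists_al (G := G) S
  rw [← hc, ← card_map inc]
  refine le_al ((map_subset_map.2 hI).trans h) ?_
  intro p hp q hq hpq hadj
  rw [mem_coe] at hp hq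
  obtain ⟨a, ha, rfl⟩ := mem_map.1 hp
  obtain ⟨b, hb, rfl⟩ := mem_map.1 hq
  exact hi (mem_coe.2 ha) (mem_coe.2 hb) (fun h => hpq (by rw [h])) (ext_coe.1 hadj)

/-- the extended set -/
def eset (C : Finset V) : Finset (WithTop V) := insert ⊤ (C.map inc)

theorem card_eset (C : Finset V) : (eset C).card = C.card + 1 := by
  unfold eset
  rw [card_insert_of_notMem top_notMem, card_map]

theorem al_eset {G : SimpleGraph V} {X C : Finset V} (hb : al G (C \ X) < al G C) :
    al (ext G X) (eset C) = al G C := by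
  classical
  refine le_antisymm (al_le fun I hI hi => ?_) (al_push (subset_insert _ _))
  by_cases ht : (⊤ : WithTop V) ∈ I
  · have h1 : I.erase ⊤ ⊆ (C \ X).map inc := by
      intro p hp
      rw [mem_erase] at hp
      rcases mem_insert.1 (hI hp.2) with h | h
      · exact absurd h hp.1
      · obtain ⟨a, ha, hap⟩ := mem_map.1 h
        refine mem_map.2 ⟨a, mem_sdiff.2 ⟨ha, fun haX => ?_⟩, hap⟩
        have h2 : (a : WithTop V) = p := hap
        rw [← h2] at hp
        exact hi (mem_coe.2 hp.2) (mem_coe.2 ht) hp.1 (ext_top.2 haX)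
    have h2 := al_pull h1 (indep_mono hi (erase_subset _ _))
    have h3 := card_erase_add_one ht
    omega
  · refine al_pull ?_ hi
    intro p hp
    rcases mem_insert.1 (hI hp) with h | h
    · exact absurd (h ▸ hp) ht
    · exact h

theorem ind_eset {G : SimpleGraph V} {X C : Finset V} (hC : Ind G C)
    (hb : al G (C \ X) < al G C) : Ind (ext G X) (eset C) := by
  classical
  refine ⟨⟨⊤, mem_insert_self _ _⟩, fun B hB hBn hBne => ?_⟩
  rw [al_eset hb]
  set S : Finset V := C.filter (fun a : V => (a : WithTop V) ∈ B) with hS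
  have hSC : S ⊆ C := filter_subset _ _
  have h1 : S.map inc ⊆ B := by
    intro p hp
    obtain ⟨a, ha, hap⟩ := mem_map.1 hp
    have h2 : (a : WithTop V) = p := hap
    rw [← h2]
    exact (mem_filter.1 ha).2
  have h2 : (C \ S).map inc ⊆ eset C \ B := by
    intro p hp
    obtain ⟨a, ha, hap⟩ := mem_map.1 hp
    have h3 : (a : WithTop V) = p := hap
    rw [mem_sdiff] at ha
    rw [mem_sdiff, ← h3]
    refine ⟨mem_insert_of_mem (mem_inc.2 ha.1), fun h4 => ha.2 (mem_filter.2 ⟨ha.1, h4⟩)⟩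
  have h3 := al_push (G := G) (X := X) h1
  have h4 := al_push (G := G) (X := X) h2
  by_cases h5 : S = ∅
  · have h6 : 1 ≤ al (ext G X) B := al_pos hBn
    rw [h5, sdiff_empty] at h4
    omega
  by_cases h6 : S = C
  · have h7 : (eset C \ B).Nonempty := by
      rw [sdiff_nonempty]
      intro h8
      exact hBne (Subset.antisymm hB h8)
    have h8 : 1 ≤ al (ext G X) (eset C \ B) := al_pos h7
    rw [h6] at h3
    omega
  have h7 := hC.2 S hSC (nonempty_iff_ne_empty.2 h5) h6
  omega

end Pool.Agent.TwoDens.K3K
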