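import Mathlib

/-!
# The Hall step of Lemma K (Tarsi's lemma for minimally unsatisfiable systems)
-/

namespace Pool.Agent.K3K

open Finset

section

variable {E ι : Type*} [DecidableEq E] [DecidableEq ι]

/-- Hall with `w j` slots for `j`. -/
theorem hall_slots (F : Finset E) (N : E → Finset ι) (w : ι → ℕ)
    (h : ∀ D ⊆ F, D.card ≤ ∑ j ∈ D.biUnion N, w j) (j0 : ι) :
    ∃ g : E → ι, (∀ f ∈ F, g f ∈ N f) ∧ ∀ j, (F.filter (fun f => g f = j)).card ≤ w j := by
  classical
  let t : {f // f ∈ F} → Finset (Σ _ : ι, ℕ) := fun f => (N f.1).sigma (fun j => range (w j))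
  have hh : ∀ s : Finset {f // f ∈ F}, s.card ≤ (s.biUnion t).card := by
    intro s
    have h1 := h (s.image Subtype.val) (by
      intro f hf
      obtain ⟨x, -, rfl⟩ := mem_image.1 hf
      exact x.2)
    rw [card_image_of_injective _ Subtype.val_injective] at h1
    have h2 : s.biUnion t = ((s.image Subtype.val).biUnion N).sigma (fun j => range (w j)) := by
      ext ⟨j, k⟩
      simp only [mem_biUnion, mem_sigma, mem_range, mem_image, t]
      constructor
      · rintro ⟨x, hx, hj, hk⟩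
        exact ⟨⟨x.1, ⟨x, hx, rfl⟩, hj⟩, hk⟩
      · rintro ⟨⟨y, ⟨x, hx, rfl⟩, hj⟩, hk⟩
        exact ⟨x, hx, hj, hk⟩
    rw [h2, card_sigma]
    simpa using h1
  obtain ⟨q, hq, hqt⟩ := (Finset.all_card_le_biUnion_card_iff_exists_injective t).1 hh
  refine ⟨fun f => if hf : f ∈ F then (q ⟨f, hf⟩).1 else j0, ?_, ?_⟩
  · intro f hf
    have h1 := hqt ⟨f, hf⟩
    simp only [dif_pos hf]
    exact (mem_sigma.1 h1).1
  · intro j
    rw [← card_range (w j)]
    refine card_le_card_of_injOn (fun f => if hf : f ∈ F then (q ⟨f, hf⟩).2 else 0) ?_ ?_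
    · intro f hf
      have hf' := mem_filter.1 hf
      obtain ⟨hfF, hfj⟩ := hf'
      simp only [dif_pos hfF] at hfj ⊢
      have h1 := hqt ⟨f, hfF⟩
      have h2 := (mem_sigma.1 h1).2
      rw [hfj] at h2
      exact h2
    · intro f hf g hg hfg
      obtain ⟨hfF, hfj⟩ := mem_filter.1 hf
      obtain ⟨hgF, hgj⟩ := mem_filter.1 hg
      simp only [dif_pos hfF, dif_pos hgF] at hfj hgj hfg
      have h3 : q ⟨f, hfF⟩ = q ⟨g, hgF⟩ := by
        apply Sigma.ext
        · rw [hfj, hgj]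
        · exact heq_of_eq hfg
      have h4 := hq h3
      exact congrArg Subtype.val h4

/-- The Hall step: `F` has at most `∑ w` elements, so either all of `F` is assigned, or
everything outside a proper part `J` is assigned outside `J`. -/
theorem tarsi' (F : Finset E) (N : E → Finset ι) (P : Finset ι) (w : ι → ℕ) (j0 : ι)
    (hN : ∀ f ∈ F, N f ⊆ P) (hF : F.card ≤ ∑ j ∈ P, w j) :
    ∃ J ⊆ P, (J ≠ P ∨ (J = ∅ ∧ ∀ f ∈ F, (N f).Nonempty)) ∧
      ∃ g : E → ι, (∀ f ∈ F, ¬ N f ⊆ J → g f ∈ N f ∧ g f ∉ J) ∧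
        ∀ j, (F.filter (fun f => ¬ N f ⊆ J ∧ g f = j)).card ≤ w j := by
  classical
  by_cases hv : ∀ D ⊆ F, D.card ≤ ∑ j ∈ D.biUnion N, w j
  · obtain ⟨g, hg, hgw⟩ := hall_slots F N w hv j0
    refine ⟨∅, empty_subset _, Or.inr ⟨rfl, fun f hf => ⟨g f, hg f hf⟩⟩, g, ?_, ?_⟩
    · intro f hf _
      exact ⟨hg f hf, notMem_empty _⟩
    · intro j
      refine le_trans (card_le_card ?_) (hgw j)
      intro f hf
      rw [mem_filter] at hf ⊢
      exact ⟨hf.1, hf.2.2⟩
  · push Not at hv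
    obtain ⟨D0, hD0, hD0v⟩ := hv
    let 𝒟 := F.powerset.filter (fun D => ∑ j ∈ D.biUnion N, w j < D.card)
    have hne : 𝒟.Nonempty := ⟨D0, mem_filter.2 ⟨mem_powerset.2 hD0, hD0v⟩⟩
    obtain ⟨D, hD, hmax⟩ := exists_max_image 𝒟 (fun D => D.card) hne
    obtain ⟨hDF, hDv⟩ := mem_filter.1 hD
    rw [mem_powerset] at hDF
    set J := D.biUnion N with hJ
    have hJP : J ⊆ P := by
      intro j hj
      obtain ⟨f, hf, hfj⟩ := mem_biUnion.1 hj
      exact hN f (hDF hf) hfj
    have hJne : J ≠ P := by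
      intro h
      rw [h] at hDv
      have := card_le_card hDF
      omega
    have hHall : ∀ D' ⊆ F.filter (fun f => ¬ N f ⊆ J),
        D'.card ≤ ∑ j ∈ D'.biUnion (fun f => N f \ J), w j := by
      intro D' hD'
      by_contra hlt
      push Not at hlt
      have hdisj : Disjoint D D' := by
        rw [disjoint_left]
        intro f hf hf'
        exact (mem_filter.1 (hD' hf')).2 (subset_biUnion_of_mem N hf)
      have hu : (D ∪ D').biUnion N = J ∪ D'.biUnion (fun f => N f \ J) := by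
        ext j
        simp only [mem_biUnion, mem_union, mem_sdiff, hJ]
        constructor
        · rintro ⟨f, hf | hf, hj⟩
          · exact Or.inl ⟨f, hf, hj⟩
          · by_cases h : ∃ a ∈ D, j ∈ N a
            · exact Or.inl h
            · exact Or.inr ⟨f, hf, hj, h⟩
        · rintro (⟨f, hf, hj⟩ | ⟨f, hf, hj, -⟩)
          · exact ⟨f, Or.inl hf, hj⟩
          · exact ⟨f, Or.inr hf, hj⟩
      have hdj : Disjoint J (D'.biUnion (fun f => N f \ J)) := by
        rw [disjoint_left]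
        intro j hj hj'
        obtain ⟨f, -, hf⟩ := mem_biUnion.1 hj'
        exact (mem_sdiff.1 hf).2 hj
      have hmem : D ∪ D' ∈ 𝒟 := by
        refine mem_filter.2 ⟨mem_powerset.2 (union_subset hDF (hD'.trans (filter_subset _ _))), ?_⟩
        rw [hu, sum_union hdj, card_union_of_disjoint hdisj]
        omega
      have h1 : (D ∪ D').card ≤ D.card := hmax _ hmem
      rw [card_union_of_disjoint hdisj] at h1
      have h2 : D'.card = 0 := by omega
      omega
    obtain ⟨g, hg, hgw⟩ := hall_slots _ _ w hHall j0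
    refine ⟨J, hJP, Or.inl hJne, g, ?_, ?_⟩
    · intro f hf hfJ
      have := hg f (mem_filter.2 ⟨hf, hfJ⟩)
      exact mem_sdiff.1 this
    · intro j
      have h1 := hgw j
      rw [filter_filter] at h1
      exact h1

/-- The Hall step in the form used by Lemma K. -/
theorem tarsi (F : Finset E) (P : Finset ι) (N : E → Finset ι) (w : ι → ℕ)
    (hN : ∀ f ∈ F, N f ⊆ P) (hP : P.Nonempty) (hF : F.card ≤ ∑ j ∈ P, w j) :
    ∃ J ⊆ P, J ≠ P ∧ ∃ g : E → ι, (∀ f ∈ F, ¬ N f ⊆ J → g f ∈ N f ∧ g f ∉ J) ∧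
      ∀ j ∈ P, j ∉ J → (F.filter (fun f => ¬ N f ⊆ J ∧ g f = j)).card ≤ w j := by
  classical
  obtain ⟨j0, hj0⟩ := hP
  obtain ⟨J, hJ, hc, g, hg, hgw⟩ := tarsi' F N P w j0 hN hF
  refine ⟨J, hJ, ?_, g, hg, fun j _ _ => ?_⟩
  · rcases hc with hc | ⟨hc, -⟩
    · exact hc
    · intro h
      rw [← h, hc] at hj0
      exact notMem_empty _ hj0
  · exact hgw j

end

end Pool.Agent.K3K
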