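import Pool.Agent.K3K.Dec
import Pool.Agent.K3K.Tarsi

/-!
Every indecomposable vertex set `A` has `e ≥ 3 n - 4 α - 2`.
-/

open Finset

namespace Pool.Agent.TwoDens.K3K

open Pool.Agent.K3K Pool.Agent.TwoDens Pool.Agent.TwoDens.RK Pool.Agent.TwoDens.DD Pool.Agent.TwoDens.TS

section
variable {V : Type*} [DecidableEq V] {G : SimpleGraph V}

theorem al_biUnion_le (Q : Finset (Finset V)) : al G (Q.biUnion id) ≤ ∑ q ∈ Q, al G q := by
  induction Q using Finset.induction_on with
  | empty => simp [al_empty]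
  | insert q Q hq ih =>
    rw [biUnion_insert, sum_insert hq]
    have h := al_union_le (G := G) (id q) (Q.biUnion id)
    simp only [id_eq] at h ⊢
    omega

end

variable {V : Type*} [LinearOrder V] {G : SimpleGraph V} [DecidableRel G.Adj]

/-- the edges inside `A`, as increasing pairs -/
def ed (G : SimpleGraph V) [DecidableRel G.Adj] (A : Finset V) : Finset (V × V) :=
  (A ×ˢ A).filter (fun p => p.1 < p.2 ∧ G.Adj p.1 p.2)

theorem mem_ed {A : Finset V} {p : V × V} :
    p ∈ ed G A ↔ (p.1 ∈ A ∧ p.2 ∈ A) ∧ p.1 < p.2 ∧ G.Adj p.1 p.2 := by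
  unfold ed
  rw [mem_filter, mem_product]

theorem ed_mono {A B : Finset V} (h : A ⊆ B) : ed G A ⊆ ed G B := by
  intro p hp
  rw [mem_ed] at hp ⊢
  exact ⟨⟨h hp.1.1, h hp.1.2⟩, hp.2⟩

theorem e2_ed (A : Finset V) : e2 G A = 2 * (ed G A).card := by
  have h1 : e2 G A = ((A ×ˢ A).filter (fun p => G.Adj p.1 p.2)).card := by
    unfold e2
    rw [card_filter, sum_product]
    refine sum_congr rfl fun x _ => ?_
    rw [card_filter]
  have h2 : (A ×ˢ A).filter (fun p => G.Adj p.1 p.2) = ed G A ∪ (ed G A).image Prod.swap := by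
    ext p
    rw [mem_filter, mem_product, mem_union, mem_ed, mem_image]
    constructor
    · rintro ⟨⟨ha, hb⟩, hadj⟩
      rcases lt_trichotomy p.1 p.2 with h | h | h
      · exact Or.inl ⟨⟨ha, hb⟩, h, hadj⟩
      · exact absurd h hadj.ne
      · refine Or.inr ⟨p.swap, ?_, Prod.swap_swap p⟩
        rw [mem_ed]
        exact ⟨⟨hb, ha⟩, h, hadj.symm⟩
    · rintro (h | ⟨q, hq, rfl⟩)
      · exact ⟨h.1, h.2.2⟩
      · rw [mem_ed] at hq
        exact ⟨⟨hq.1.2, hq.1.1⟩, hq.2.2.symm⟩
  have h3 : Disjoint (ed G A) ((ed G A).image Prod.swap) := by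
    rw [Finset.disjoint_left]
    intro p hp hp'
    rw [mem_image] at hp'
    obtain ⟨q, hq, rfl⟩ := hp'
    rw [mem_ed] at hp hq
    exact absurd hp.2.1 (not_lt.2 hq.2.1.le)
  rw [h1, h2, card_union_of_disjoint h3, card_image_of_injective _ Prod.swap_injective]
  ring

theorem key {A X : Finset V} {P : Finset (Finset V)} (hA : Ind G A) (hX : X ⊆ A)
    (hXn : X.Nonempty) (hal : al G (A \ X) + X.card = al G A + 1) (hne : (A \ X).Nonempty)
    (hP : Dec G (A \ X) P) :
    ∑ q ∈ P, cap G q + 1 ≤ (ed G A \ P.biUnion (ed G)).card := by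
  classical
  by_contra hcon
  push Not at hcon
  have hF : (ed G A \ P.biUnion (ed G)).card ≤ ∑ q ∈ P, cap G q := by omega
  have hPn : P.Nonempty := by
    rw [nonempty_iff_ne_empty]
    intro h
    rw [← hP.un, h] at hne
    simp at hne
  obtain ⟨J, hJP, hJne, g, hg1, hg2⟩ := tarsi (ed G A \ P.biUnion (ed G)) P
    (fun f => P.filter (fun q => f.1 ∈ q ∨ f.2 ∈ q)) (cap G)
    (fun f _ => filter_subset _ _) hPn hF
  set F := ed G A \ P.biUnion (ed G) with hFdef
  set B := (P \ J).biUnion id with hBdef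
  have hmB : ∀ v, v ∈ B ↔ ∃ q ∈ P, q ∉ J ∧ v ∈ q := by
    intro v
    rw [hBdef, mem_biUnion]
    constructor
    · rintro ⟨q, hq, hv⟩
      rw [mem_sdiff] at hq
      exact ⟨q, hq.1, hq.2, hv⟩
    · rintro ⟨q, hq, hqJ, hv⟩
      exact ⟨q, mem_sdiff.2 ⟨hq, hqJ⟩, hv⟩
  have hBA' : B ⊆ A \ X := by
    intro v hv
    obtain ⟨q, hq, _, hv⟩ := (hmB v).1 hv
    exact hP.sub hq hv
  have hBA : B ⊆ A := hBA'.trans sdiff_subset
  obtain ⟨q0, hq0, hq0J⟩ : ∃ q ∈ P, q ∉ J := by
    by_contra hc
    push Not at hc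
    exact hJne (Subset.antisymm hJP hc)
  have hBn : B.Nonempty := by
    obtain ⟨v, hv⟩ := (hP.ind q0 hq0).1
    exact ⟨v, (hmB v).2 ⟨q0, hq0, hq0J, hv⟩⟩
  have hBne : B ≠ A := by
    intro h
    obtain ⟨x, hx⟩ := hXn
    have h1 := hBA' (h ▸ hX hx)
    rw [mem_sdiff] at h1
    exact h1.2 hx
  have h1 := hA.2 B hBA hBn hBne
  have h2 : al G B ≤ ∑ q ∈ P \ J, al G q := al_biUnion_le _
  obtain ⟨I1, hI1, hI1i, hI1c⟩ := exists_al (G := G) (A \ B)
  -- the avoided vertices
  let T : Finset V → Finset V := fun q =>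
    (F.filter (fun f => ¬ P.filter (fun r => f.1 ∈ r ∨ f.2 ∈ r) ⊆ J ∧ g f = q)).image
      (fun f => if f.1 ∈ q then f.1 else f.2)
  have hT : ∀ q ∈ P, q ∉ J → ∃ S ⊆ q \ T q, G.IsIndepSet (S : Set V) ∧ S.card = al G q := by
    intro q hq hqJ
    have h3 : T q ⊆ q := by
      intro v hv
      simp only [T, mem_image, mem_filter] at hv
      obtain ⟨f, ⟨hf, hfJ, hgf⟩, hv⟩ := hv
      have h4 := (hg1 f hf hfJ).1
      rw [hgf, mem_filter] at h4
      rw [← hv]
      split_ifs with h5
      · exact h5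
      · exact h4.2.resolve_left h5
    have h4 : (T q).card ≤ cap G q := card_image_le.trans (hg2 q hq hqJ)
    obtain ⟨S, hS, hSi, hSc⟩ := exists_al (G := G) (q \ T q)
    exact ⟨S, hS, hSi, hSc.trans ((hP.ind q hq).avoid h3 h4)⟩
  choose! S hS hSi hSc using hT
  have hSq : ∀ q ∈ P, q ∉ J → S q ⊆ q := fun q hq hqJ => (hS q hq hqJ).trans sdiff_subset
  have hpart : ∀ q ∈ P, ∀ r ∈ P, ∀ v, v ∈ q → v ∈ r → q = r := by
    intro q hq r hr v hv hw
    by_contra hc
    exact Finset.disjoint_left.1 (hP.disj q hq r hr hc) hv hw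
  set I := I1 ∪ (P \ J).biUnion S with hI
  have hmI : ∀ v, v ∈ I ↔ v ∈ I1 ∨ ∃ q ∈ P, q ∉ J ∧ v ∈ S q := by
    intro v
    rw [hI, mem_union, mem_biUnion]
    constructor
    · rintro (h | ⟨q, hq, hv⟩)
      · exact Or.inl h
      · rw [mem_sdiff] at hq
        exact Or.inr ⟨q, hq.1, hq.2, hv⟩
    · rintro (h | ⟨q, hq, hqJ, hv⟩)
      · exact Or.inl h
      · exact Or.inr ⟨q, mem_sdiff.2 ⟨hq, hqJ⟩, hv⟩
  -- a vertex of `I` in a part outside `J` is in the chosen set of that part
  have hin : ∀ v ∈ I, ∀ q ∈ P, q ∉ J → v ∈ q → v ∈ S q := by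
    intro v hv q hq hqJ hvq
    rcases (hmI v).1 hv with h | ⟨r, hr, hrJ, hvr⟩
    · have h3 := hI1 h
      rw [mem_sdiff] at h3
      exact absurd ((hmB v).2 ⟨q, hq, hqJ, hvq⟩) h3.2
    · rwa [hpart q hq r hr v hvq (hSq r hr hrJ hvr)]
  -- a vertex of `I` not in `B` is in `I1`
  have hout : ∀ v ∈ I, v ∉ B → v ∈ I1 := by
    intro v hv hvB
    rcases (hmI v).1 hv with h | ⟨r, hr, hrJ, hvr⟩
    · exact h
    · exact absurd ((hmB v).2 ⟨r, hr, hrJ, hSq r hr hrJ hvr⟩) hvB
  have hIA : I ⊆ A := by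
    intro v hv
    rcases (hmI v).1 hv with h | ⟨r, hr, hrJ, hvr⟩
    · exact (mem_sdiff.1 (hI1 h)).1
    · exact (mem_sdiff.1 (hP.sub hr (hSq r hr hrJ hvr))).1
  have hno : ∀ x ∈ I, ∀ y ∈ I, x < y → ¬ G.Adj x y := by
    intro x hx y hy hlt hadj
    have hf : (x, y) ∈ ed G A := by
      rw [mem_ed]
      exact ⟨⟨hIA hx, hIA hy⟩, hlt, hadj⟩
    by_cases h3 : ∃ q ∈ P, x ∈ q ∧ y ∈ q
    · obtain ⟨q, hq, hxq, hyq⟩ := h3
      by_cases hqJ : q ∈ J
      · have h4 : ∀ v, v ∈ q → v ∉ B := by
          intro v hv hvB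
          obtain ⟨r, hr, hrJ, hvr⟩ := (hmB v).1 hvB
          rw [hpart q hq r hr v hv hvr] at hqJ
          exact hrJ hqJ
        exact hI1i (mem_coe.2 (hout x hx (h4 x hxq))) (mem_coe.2 (hout y hy (h4 y hyq)))
          hadj.ne hadj
      · exact hSi q hq hqJ (mem_coe.2 (hin x hx q hq hqJ hxq))
          (mem_coe.2 (hin y hy q hq hqJ hyq)) hadj.ne hadj
    · have hfF : (x, y) ∈ F := by
        rw [hFdef, mem_sdiff]
        refine ⟨hf, ?_⟩
        rw [mem_biUnion]
        rintro ⟨q, hq, hfq⟩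
        rw [mem_ed] at hfq
        exact h3 ⟨q, hq, hfq.1.1, hfq.1.2⟩
      by_cases h4 : P.filter (fun r => (x, y).1 ∈ r ∨ (x, y).2 ∈ r) ⊆ J
      · have h5 : ∀ v, v = x ∨ v = y → v ∉ B := by
          intro v hv hvB
          obtain ⟨r, hr, hrJ, hvr⟩ := (hmB v).1 hvB
          refine hrJ (h4 (mem_filter.2 ⟨hr, ?_⟩))
          rcases hv with rfl | rfl
          · exact Or.inl hvr
          · exact Or.inr hvr
        exact hI1i (mem_coe.2 (hout x hx (h5 x (Or.inl rfl))))
          (mem_coe.2 (hout y hy (h5 y (Or.inr rfl)))) hadj.ne hadj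
      · obtain ⟨h5, h6⟩ := hg1 (x, y) hfF h4
        rw [mem_filter] at h5
        set q := g (x, y) with hqdef
        have h7 : (if (x, y).1 ∈ q then (x, y).1 else (x, y).2) ∈ T q := by
          simp only [T, mem_image, mem_filter]
          exact ⟨(x, y), ⟨hfF, h4, hqdef.symm⟩, rfl⟩
        have h8 : (if (x, y).1 ∈ q then (x, y).1 else (x, y).2) ∈ S q := by
          split_ifs with h9
          · exact hin x hx q h5.1 h6 h9
          · exact hin y hy q h5.1 h6 (h5.2.resolve_left h9)
        exact (mem_sdiff.1 (hS q h5.1 h6 h8)).2 h7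
  have hIi : G.IsIndepSet (I : Set V) := by
    intro x hx y hy hxy hadj
    rcases lt_or_gt_of_ne hxy with h | h
    · exact hno x (mem_coe.1 hx) y (mem_coe.1 hy) h hadj
    · exact hno y (mem_coe.1 hy) x (mem_coe.1 hx) h hadj.symm
  have hIc : I.card = I1.card + ∑ q ∈ P \ J, al G q := by
    rw [hI, card_union_of_disjoint, card_biUnion]
    · refine congrArg _ (sum_congr rfl fun q hq => ?_)
      rw [mem_sdiff] at hq
      exact hSc q hq.1 hq.2
    · intro q hq r hr hne
      rw [mem_coe, mem_sdiff] at hq hr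
      change Disjoint (S q) (S r)
      exact Disjoint.mono (hSq q hq.1 hq.2) (hSq r hr.1 hr.2) (hP.disj q hq.1 r hr.1 hne)
    · rw [Finset.disjoint_left]
      intro v hv hv'
      rw [mem_biUnion] at hv'
      obtain ⟨q, hq, hvq⟩ := hv'
      rw [mem_sdiff] at hq
      exact (mem_sdiff.1 (hI1 hv)).2 ((hmB v).2 ⟨q, hq.1, hq.2, hSq q hq.1 hq.2 hvq⟩)
  have h9 := le_al hIA hIi
  omega

theorem lemK_ind (A : Finset V) (hA : Ind G A) :
    3 * A.card ≤ (ed G A).card + cap G A + 4 * al G A := by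
  classical
  induction hn : A.card using Nat.strong_induction_on generalizing A with
  | _ n ih =>
    subst hn
    by_cases h1 : A.card ≤ 1
    · have h2 := al_pos (G := G) hA.1
      omega
    -- the general step
    have step : ∀ X ⊆ A, X.Nonempty → (A \ X).Nonempty →
        al G (A \ X) + X.card = al G A + 1 →
        3 * A.card + X.card ≤ (ed G A).card + 4 * al G A + 3 := by
      intro X hX hXn hne hal
      obtain ⟨P, hP⟩ := exists_dec (G := G) (A \ X)
      have h2 := key hA hX hXn hal hne hP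
      have h3 : ∑ q ∈ P, 3 * q.card ≤ ∑ q ∈ P, ((ed G q).card + cap G q + 4 * al G q) := by
        refine sum_le_sum fun q hq => ?_
        have h4 : q.card < A.card := by
          have h5 := card_le_card (hP.sub hq)
          have h6 := card_sdiff_add_card_eq_card hX
          have h7 := hXn.card_pos
          omega
        exact ih _ h4 q (hP.ind q hq) rfl
      rw [sum_add_distrib, sum_add_distrib, ← mul_sum, ← mul_sum, hP.sum] at h3
      have h4 : ∑ q ∈ P, q.card = (A \ X).card := by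
        have h5 := card_biUnion (s := P) (t := id) (fun q hq r hr hne => hP.disj q hq r hr hne)
        rw [hP.un] at h5
        rw [h5]
        rfl
      have h5 : (P.biUnion (ed G)).card = ∑ q ∈ P, (ed G q).card := by
        refine card_biUnion (fun q hq r hr hne => ?_)
        change Disjoint (ed G q) (ed G r)
        rw [Finset.disjoint_left]
        intro f hf hf'
        rw [mem_ed] at hf hf'
        exact Finset.disjoint_left.1 (hP.disj q hq r hr hne) hf.1.1 hf'.1.1
      have h6 : P.biUnion (ed G) ⊆ ed G A := by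
        intro f hf
        rw [mem_biUnion] at hf
        obtain ⟨q, hq, hf⟩ := hf
        exact ed_mono ((hP.sub hq).trans sdiff_subset) hf
      have h7 := card_sdiff_add_card_eq_card h6
      have h8 := card_sdiff_add_card_eq_card hX
      omega
    by_cases h2 : ∃ x ∈ A, ∃ y ∈ A, x ≠ y ∧ al G (A \ {x, y}) < al G A
    · have h3 : cap G A = 1 := by
        unfold cap
        rw [if_neg h1, if_pos h2]
      obtain ⟨x, hx, y, hy, hxy, hlt⟩ := h2
      have hX : ({x, y} : Finset V) ⊆ A := by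
        intro v hv
        rw [mem_insert, mem_singleton] at hv
        rcases hv with rfl | rfl
        · exact hx
        · exact hy
      have hXc : ({x, y} : Finset V).card = 2 := card_pair hxy
      have h4 : al G A ≤ al G (A \ {x, y}) + 1 := by
        have h5 := hA.av1 (by omega) hx
        have h6 := al_union_le (G := G) (A \ {x, y}) {y}
        have h7 : A \ {x} ⊆ (A \ {x, y}) ∪ {y} := by
          intro v hv
          rw [mem_sdiff, mem_singleton] at hv
          rw [mem_union, mem_sdiff, mem_insert, mem_singleton]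
          by_cases h8 : v = y
          · exact Or.inr h8
          · exact Or.inl ⟨hv.1, by
              rintro (h9 | h9)
              · exact hv.2 h9
              · exact h8 h9⟩
        have h8 := al_mono (G := G) h7
        rw [al_singleton] at h6
        omega
      by_cases h5 : (A \ {x, y}).Nonempty
      · have h6 := step {x, y} hX ⟨x, mem_insert_self _ _⟩ h5 (by omega)
        rw [hXc] at h6
        omega
      · rw [not_nonempty_iff_eq_empty, sdiff_eq_empty_iff_subset] at h5
        have h6 : A = {x, y} := Subset.antisymm h5 hX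
        have h7 : A.card = 2 := by rw [h6, hXc]
        have h8 := hA.av1 (by omega) hx
        have h9 : al G (A \ {x}) ≤ 1 := by
          have h10 := al_le_card (G := G) (A \ {x})
          have h11 := card_sdiff_add_card_eq_card (singleton_subset_iff.2 hx)
          rw [card_singleton] at h11
          omega
        have h10 : ∃ p, p ∈ ed G A := by
          by_contra hc
          push Not at hc
          have h11 : G.IsIndepSet (A : Set V) := by
            intro u hu v hv huv hadj
            rcases lt_or_gt_of_ne huv with h | h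
            · exact hc (u, v) (mem_ed.2 ⟨⟨mem_coe.1 hu, mem_coe.1 hv⟩, h, hadj⟩)
            · exact hc (v, u) (mem_ed.2 ⟨⟨mem_coe.1 hv, mem_coe.1 hu⟩, h, hadj.symm⟩)
          have h12 := le_al (Subset.refl A) h11
          omega
        obtain ⟨p, hp⟩ := h10
        have h11 := card_pos.2 ⟨p, hp⟩
        have h12 := al_pos (G := G) hA.1
        omega
    · have h3 : cap G A = 2 := by
        unfold cap
        rw [if_neg h1, if_neg h2]
      obtain ⟨v, hv⟩ := hA.1
      have h4 := hA.av1 (by omega) hv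
      have h5 : (A \ {v}).Nonempty := by
        rw [← card_pos]
        have h11 := card_sdiff_add_card_eq_card (singleton_subset_iff.2 hv)
        rw [card_singleton] at h11
        omega
      have h6 := step {v} (singleton_subset_iff.2 hv) (singleton_nonempty v) h5 (by
        rw [card_singleton]
        omega)
      rw [card_singleton] at h6
      omega

theorem cap_le (A : Finset V) : cap G A ≤ 2 := by
  classical
  unfold cap
  split_ifs <;> omega

/-- every vertex set splits into parts with `e ≥ 3 n - 4 α - 2` and additive `α` -/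
theorem lemK (G : SimpleGraph V) [DecidableRel G.Adj] (Y : Finset V) :
    ∃ P : Finset (Finset V), (∀ A ∈ P, ∀ B ∈ P, A ≠ B → Disjoint A B) ∧ P.biUnion id = Y ∧
      ∑ A ∈ P, al G A = al G Y ∧
      ∀ A ∈ P, 1 ≤ A.card ∧ 6 * A.card ≤ e2 G A + 8 * al G A + 4 := by
  obtain ⟨P, hP⟩ := exists_dec (G := G) Y
  refine ⟨P, hP.disj, hP.un, hP.sum, fun A hA => ⟨(hP.ind A hA).1.card_pos, ?_⟩⟩
  have h1 := lemK_ind A (hP.ind A hA)
  have h2 := cap_le (G := G) A
  rw [e2_ed]
  omega

end Pool.Agent.TwoDens.K3K
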