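import Pool.Agent.K3K.KL

/-!
The Hall step of Lemma K with an arbitrary capacity function, and the extension of an
indecomposable set by a new vertex joined to a blocking set.
-/

open Finset

namespace Pool.Agent.TwoDens.K3K

open Pool.Agent.K3K Pool.Agent.TwoDens Pool.Agent.TwoDens.RK Pool.Agent.TwoDens.DD Pool.Agent.TwoDens.TS

section
variable {V : Type*} [LinearOrder V] {G : SimpleGraph V} [DecidableRel G.Adj]

theorem keyW {A X : Finset V} {P : Finset (Finset V)} (w : Finset V → ℕ) (hA : Ind G A)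
    (hX : X ⊆ A) (hXn : X.Nonempty) (_hal : al G (A \ X) + X.card = al G A + 1)
    (hne : (A \ X).Nonempty) (hP : Dec G (A \ X) P)
    (hw : ∀ q ∈ P, ∀ T ⊆ q, T.card ≤ w q → al G (q \ T) = al G q) :
    ∑ q ∈ P, w q + 1 ≤ (ed G A \ P.biUnion (ed G)).card := by
  classical
  by_contra hcon
  push Not at hcon
  have hF : (ed G A \ P.biUnion (ed G)).card ≤ ∑ q ∈ P, w q := by omega
  have hPn : P.Nonempty := by
    rw [nonempty_iff_ne_empty]
    intro h
    rw [← hP.un, h] at hne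
    simp at hne
  obtain ⟨J, hJP, hJne, g, hg1, hg2⟩ := tarsi (ed G A \ P.biUnion (ed G)) P
    (fun f => P.filter (fun q => f.1 ∈ q ∨ f.2 ∈ q)) w
    (fun f _ => filter_subset _ _) hPn hF
  set F := ed G A \ P.biUnion (ed G) with hFdef
  set B := (P \ J).biUnion id with hBdef
  have hmB : ∀ v, v ∈ B ↔ ∃ q ∈ P, q ∉ J ∧ v ∈ q := by
    intro v
    rw [hBdef, mem_biUnion]
    constructor
    · rintro ⟨q, hq, hv⟩
      rw [mem_sdiff] at hq
      exact ⟨q, hq.1, hq.2, hv⟩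
    · rintro ⟨q, hq, hqJ, hv⟩
      exact ⟨q, mem_sdiff.2 ⟨hq, hqJ⟩, hv⟩
  have hBA' : B ⊆ A \ X := by
    intro v hv
    obtain ⟨q, hq, _, hv⟩ := (hmB v).1 hv
    exact hP.sub hq hv
  have hBA : B ⊆ A := hBA'.trans sdiff_subset
  obtain ⟨q0, hq0, hq0J⟩ : ∃ q ∈ P, q ∉ J := by
    by_contra hc
    push Not at hc
    exact hJne (Subset.antisymm hJP hc)
  have hBn : B.Nonempty := by
    obtain ⟨v, hv⟩ := (hP.ind q0 hq0).1
    exact ⟨v, (hmB v).2 ⟨q0, hq0, hq0J, hv⟩⟩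
  have hBne : B ≠ A := by
    intro h
    obtain ⟨x, hx⟩ := hXn
    have h1 := hBA' (h ▸ hX hx)
    rw [mem_sdiff] at h1
    exact h1.2 hx
  have h1 := hA.2 B hBA hBn hBne
  have h2 : al G B ≤ ∑ q ∈ P \ J, al G q := al_biUnion_le _
  obtain ⟨I1, hI1, hI1i, hI1c⟩ := exists_al (G := G) (A \ B)
  -- the avoided vertices
  let T : Finset V → Finset V := fun q =>
    (F.filter (fun f => ¬ P.filter (fun r => f.1 ∈ r ∨ f.2 ∈ r) ⊆ J ∧ g f = q)).image
      (fun f => if f.1 ∈ q then f.1 else f.2)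
  have hT : ∀ q ∈ P, q ∉ J → ∃ S ⊆ q \ T q, G.IsIndepSet (S : Set V) ∧ S.card = al G q := by
    intro q hq hqJ
    have h3 : T q ⊆ q := by
      intro v hv
      simp only [T, mem_image, mem_filter] at hv
      obtain ⟨f, ⟨hf, hfJ, hgf⟩, hv⟩ := hv
      have h4 := (hg1 f hf hfJ).1
      rw [hgf, mem_filter] at h4
      rw [← hv]
      split_ifs with h5
      · exact h5
      · exact h4.2.resolve_left h5
    have h4 : (T q).card ≤ w q := card_image_le.trans (hg2 q hq hqJ)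
    obtain ⟨S, hS, hSi, hSc⟩ := exists_al (G := G) (q \ T q)
    exact ⟨S, hS, hSi, hSc.trans (hw q hq _ h3 h4)⟩
  choose! S hS hSi hSc using hT
  have hSq : ∀ q ∈ P, q ∉ J → S q ⊆ q := fun q hq hqJ => (hS q hq hqJ).trans sdiff_subset
  have hpart : ∀ q ∈ P, ∀ r ∈ P, ∀ v, v ∈ q → v ∈ r → q = r := by
    intro q hq r hr v hv hw
    by_contra hc
    exact Finset.disjoint_left.1 (hP.disj q hq r hr hc) hv hw
  set I := I1 ∪ (P \ J).biUnion S with hI
  have hmI : ∀ v, v ∈ I ↔ v ∈ I1 ∨ ∃ q ∈ P, q ∉ J ∧ v ∈ S q := by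
    intro v
    rw [hI, mem_union, mem_biUnion]
    constructor
    · rintro (h | ⟨q, hq, hv⟩)
      · exact Or.inl h
      · rw [mem_sdiff] at hq
        exact Or.inr ⟨q, hq.1, hq.2, hv⟩
    · rintro (h | ⟨q, hq, hqJ, hv⟩)
      · exact Or.inl h
      · exact Or.inr ⟨q, mem_sdiff.2 ⟨hq, hqJ⟩, hv⟩
  -- a vertex of `I` in a part outside `J` is in the chosen set of that part
  have hin : ∀ v ∈ I, ∀ q ∈ P, q ∉ J → v ∈ q → v ∈ S q := by
    intro v hv q hq hqJ hvq
    rcases (hmI v).1 hv with h | ⟨r, hr, hrJ, hvr⟩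
    · have h3 := hI1 h
      rw [mem_sdiff] at h3
      exact absurd ((hmB v).2 ⟨q, hq, hqJ, hvq⟩) h3.2
    · rwa [hpart q hq r hr v hvq (hSq r hr hrJ hvr)]
  -- a vertex of `I` not in `B` is in `I1`
  have hout : ∀ v ∈ I, v ∉ B → v ∈ I1 := by
    intro v hv hvB
    rcases (hmI v).1 hv with h | ⟨r, hr, hrJ, hvr⟩
    · exact h
    · exact absurd ((hmB v).2 ⟨r, hr, hrJ, hSq r hr hrJ hvr⟩) hvB
  have hIA : I ⊆ A := by
    intro v hv
    rcases (hmI v).1 hv with h | ⟨r, hr, hrJ, hvr⟩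
    · exact (mem_sdiff.1 (hI1 h)).1
    · exact (mem_sdiff.1 (hP.sub hr (hSq r hr hrJ hvr))).1
  have hno : ∀ x ∈ I, ∀ y ∈ I, x < y → ¬ G.Adj x y := by
    intro x hx y hy hlt hadj
    have hf : (x, y) ∈ ed G A := by
      rw [mem_ed]
      exact ⟨⟨hIA hx, hIA hy⟩, hlt, hadj⟩
    by_cases h3 : ∃ q ∈ P, x ∈ q ∧ y ∈ q
    · obtain ⟨q, hq, hxq, hyq⟩ := h3
      by_cases hqJ : q ∈ J
      · have h4 : ∀ v, v ∈ q → v ∉ B := by
          intro v hv hvB
          obtain ⟨r, hr, hrJ, hvr⟩ := (hmB v).1 hvB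
          rw [hpart q hq r hr v hv hvr] at hqJ
          exact hrJ hqJ
        exact hI1i (mem_coe.2 (hout x hx (h4 x hxq))) (mem_coe.2 (hout y hy (h4 y hyq)))
          hadj.ne hadj
      · exact hSi q hq hqJ (mem_coe.2 (hin x hx q hq hqJ hxq))
          (mem_coe.2 (hin y hy q hq hqJ hyq)) hadj.ne hadj
    · have hfF : (x, y) ∈ F := by
        rw [hFdef, mem_sdiff]
        refine ⟨hf, ?_⟩
        rw [mem_biUnion]
        rintro ⟨q, hq, hfq⟩
        rw [mem_ed] at hfq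
        exact h3 ⟨q, hq, hfq.1.1, hfq.1.2⟩
      by_cases h4 : P.filter (fun r => (x, y).1 ∈ r ∨ (x, y).2 ∈ r) ⊆ J
      · have h5 : ∀ v, v = x ∨ v = y → v ∉ B := by
          intro v hv hvB
          obtain ⟨r, hr, hrJ, hvr⟩ := (hmB v).1 hvB
          refine hrJ (h4 (mem_filter.2 ⟨hr, ?_⟩))
          rcases hv with rfl | rfl
          · exact Or.inl hvr
          · exact Or.inr hvr
        exact hI1i (mem_coe.2 (hout x hx (h5 x (Or.inl rfl))))
          (mem_coe.2 (hout y hy (h5 y (Or.inr rfl)))) hadj.ne hadj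
      · obtain ⟨h5, h6⟩ := hg1 (x, y) hfF h4
        rw [mem_filter] at h5
        set q := g (x, y) with hqdef
        have h7 : (if (x, y).1 ∈ q then (x, y).1 else (x, y).2) ∈ T q := by
          simp only [T, mem_image, mem_filter]
          exact ⟨(x, y), ⟨hfF, h4, hqdef.symm⟩, rfl⟩
        have h8 : (if (x, y).1 ∈ q then (x, y).1 else (x, y).2) ∈ S q := by
          split_ifs with h9
          · exact hin x hx q h5.1 h6 h9
          · exact hin y hy q h5.1 h6 (h5.2.resolve_left h9)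
        exact (mem_sdiff.1 (hS q h5.1 h6 h8)).2 h7
  have hIi : G.IsIndepSet (I : Set V) := by
    intro x hx y hy hxy hadj
    rcases lt_or_gt_of_ne hxy with h | h
    · exact hno x (mem_coe.1 hx) y (mem_coe.1 hy) h hadj
    · exact hno y (mem_coe.1 hy) x (mem_coe.1 hx) h hadj.symm
  have hIc : I.card = I1.card + ∑ q ∈ P \ J, al G q := by
    rw [hI, card_union_of_disjoint, card_biUnion]
    · refine congrArg _ (sum_congr rfl fun q hq => ?_)
      rw [mem_sdiff] at hq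
      exact hSc q hq.1 hq.2
    · intro q hq r hr hne
      rw [mem_coe, mem_sdiff] at hq hr
      change Disjoint (S q) (S r)
      exact Disjoint.mono (hSq q hq.1 hq.2) (hSq r hr.1 hr.2) (hP.disj q hq.1 r hr.1 hne)
    · rw [Finset.disjoint_left]
      intro v hv hv'
      rw [mem_biUnion] at hv'
      obtain ⟨q, hq, hvq⟩ := hv'
      rw [mem_sdiff] at hq
      exact (mem_sdiff.1 (hI1 hv)).2 ((hmB v).2 ⟨q, hq.1, hq.2, hSq q hq.1 hq.2 hvq⟩)
  have h9 := le_al hIA hIi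
  omega


end

end Pool.Agent.TwoDens.K3K
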