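import Pool.Agent.K3K.KW
import Pool.Agent.K3K.Ext

/-!
Lemma L: every indecomposable vertex set `A` has `e ≥ (k+1) n - b_k α - k`, where
`b_k = (k^2+k+2)/2`, for every `k ≥ 0`.
-/

open Finset

namespace Pool.Agent.TwoDens.K3K

open Pool.Agent.K3K Pool.Agent.TwoDens Pool.Agent.TwoDens.RK Pool.Agent.TwoDens.DD Pool.Agent.TwoDens.TS

universe u

/-- `(k^2+k+2)/2` -/
def bb (k : ℕ) : ℕ := (k * k + k + 2) / 2

theorem two_bb (k : ℕ) : 2 * bb k = k * k + k + 2 := by
  unfold bb
  have h : 2 ∣ k * k + k + 2 := by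
    have h1 : Even (k * (k + 1)) := Nat.even_mul_succ_self k
    obtain ⟨r, hr⟩ := h1
    refine ⟨r + 1, ?_⟩
    have h2 : k * (k + 1) = k * k + k := by ring
    omega
  exact Nat.mul_div_cancel' h

theorem bb_zero : bb 0 = 1 := rfl

theorem bb_succ (k : ℕ) : bb (k + 1) = bb k + (k + 1) := by
  have h1 := two_bb k
  have h2 := two_bb (k + 1)
  have h3 : (k + 1) * (k + 1) = k * k + 2 * k + 1 := by ring
  omega

section
variable {V : Type u} [LinearOrder V]

theorem ed_eset_le {G : SimpleGraph V} [DecidableRel G.Adj] {X C : Finset V}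
    [DecidableRel (ext G X).Adj] :
    (ed (ext G X) (eset C)).card ≤ (ed G C).card + X.card := by
  classical
  have h1 : ed (ext G X) (eset C) ⊆
      (ed G C).image (fun p : V × V => ((p.1 : WithTop V), (p.2 : WithTop V))) ∪
        X.image (fun x : V => ((x : WithTop V), (⊤ : WithTop V))) := by
    intro p hp
    rw [mem_ed] at hp
    obtain ⟨⟨hp1, hp2⟩, hlt, hadj⟩ := hp
    rw [mem_union, mem_image, mem_image]
    rcases hadj with ⟨a, b, ha, hb, h⟩ | ⟨a, haX, ha, hb⟩ | ⟨a, haX, ha, hb⟩
    · refine Or.inl ⟨(a, b), ?_, Prod.ext ha.symm hb.symm⟩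
      have h3 : ∀ c : V, (c : WithTop V) ∈ eset C → c ∈ C := by
        intro c hc
        rcases mem_insert.1 hc with h4 | h4
        · exact absurd h4 WithTop.coe_ne_top
        · exact mem_inc.1 h4
      rw [ha] at hp1 hlt
      rw [hb] at hp2 hlt
      exact mem_ed.2 ⟨⟨h3 a hp1, h3 b hp2⟩, WithTop.coe_lt_coe.1 hlt, h⟩
    · exact Or.inr ⟨a, haX, Prod.ext ha.symm hb.symm⟩
    · rw [ha] at hlt
      exact absurd hlt not_top_lt
  refine (card_le_card h1).trans ((card_union_le _ _).trans ?_)
  exact Nat.add_le_add card_image_le card_image_le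

theorem ed_sdiff_singleton {G : SimpleGraph V} [DecidableRel G.Adj] {A : Finset V} {x : V}
    (hx : x ∈ A) : (ed G A).card = (ed G (A \ {x})).card + (nb G A x).card := by
  have h1 := e2_sdiff (G := G) (singleton_subset_iff.2 hx)
  have h2 : ed G ({x} : Finset V) = ∅ := by
    rw [eq_empty_iff_forall_notMem]
    intro p hp
    rw [mem_ed, mem_singleton, mem_singleton] at hp
    exact absurd hp.2.1 (by rw [hp.1.1, hp.1.2]; exact lt_irrefl x)
  have h3 := e2_ed (G := G) A
  have h4 := e2_ed (G := G) (A \ {x})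
  have h5 := e2_ed (G := G) ({x} : Finset V)
  rw [h2, card_empty] at h5
  rw [sum_singleton] at h1
  omega

/-- the vertices outside a maximum independent set have neighbours in it -/
theorem sum_max {G : SimpleGraph V} [DecidableRel G.Adj] {A M : Finset V} (hM : M ⊆ A)
    (hi : G.IsIndepSet (M : Set V)) (hc : M.card = al G A) :
    A.card ≤ ∑ u ∈ M, (nb G A u).card + al G A := by
  have h1 : A \ M ⊆ M.biUnion (nb G A) := by
    intro v hv
    rw [mem_sdiff] at hv
    by_contra hcon
    have h2 : G.IsIndepSet ((insert v M : Finset V) : Set V) := by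
      refine indep_insert hi fun x hx hadj => hcon ?_
      exact mem_biUnion.2 ⟨x, hx, mem_nb.2 ⟨hv.1, hadj.symm⟩⟩
    have h3 := le_al (insert_subset hv.1 hM) h2
    rw [card_insert_of_notMem hv.2] at h3
    omega
  have h2 := (card_le_card h1).trans card_biUnion_le
  have h3 := card_sdiff_add_card_eq_card hM
  omega

theorem base0 {G : SimpleGraph V} [DecidableRel G.Adj] (A : Finset V) :
    A.card ≤ (ed G A).card + al G A := by
  obtain ⟨M, hM, hi, hc⟩ := exists_al (G := G) A
  have h1 := sum_max hM hi hc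
  have h2 : A.card ≤ ∑ u ∈ A \ M, (nb G A u).card + al G A := by
    have h3 : (A \ M).card ≤ ∑ u ∈ A \ M, (nb G A u).card := by
      rw [card_eq_sum_ones]
      refine sum_le_sum fun v hv => ?_
      rw [mem_sdiff] at hv
      by_contra hcon
      have h4 : nb G A v = ∅ := by
        rw [← card_eq_zero]
        omega
      have h2 : G.IsIndepSet ((insert v M : Finset V) : Set V) := by
        refine indep_insert hi fun x hx hadj => ?_
        have h5 : x ∈ nb G A v := mem_nb.2 ⟨hM hx, hadj⟩
        rw [h4] at h5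
        exact notMem_empty _ h5
      have h3 := le_al (insert_subset hv.1 hM) h2
      rw [card_insert_of_notMem hv.2] at h3
      omega
    have h4 := card_sdiff_add_card_eq_card hM
    omega
  have h3 : e2 G A = ∑ u ∈ A \ M, (nb G A u).card + ∑ u ∈ M, (nb G A u).card := by
    rw [e2_eq]
    exact (sum_sdiff hM).symm
  have h4 := e2_ed (G := G) A
  omega

end

/-- the inequality -/
def LI {V : Type u} [LinearOrder V] (G : SimpleGraph V) [DecidableRel G.Adj] (A : Finset V)
    (k : ℕ) : Prop :=
  (k + 1) * A.card ≤ (ed G A).card + bb k * al G A + k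

/-- the induction hypothesis -/
def IH (n : ℕ) : Prop :=
  ∀ (V : Type u) [LinearOrder V] (G : SimpleGraph V) [DecidableRel G.Adj] (A : Finset V),
    A.card < n → Ind G A → ∀ k, LI G A k

section
variable {V : Type u} [LinearOrder V] {G : SimpleGraph V} [DecidableRel G.Adj]

/-- the capacity of an indecomposable set -/
theorem avoid_of {n k : ℕ} (ih : IH.{u} n) {C T : Finset V} (hC : Ind G C)
    (hn : C.card + 1 < n) (hT : T.card + ((ed G C).card + bb k * al G C) ≤ (k + 1) * C.card) :
    al G (C \ T) = al G C := by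
  classical
  by_contra hne
  have hlt : al G (C \ T) < al G C := lt_of_le_of_ne (al_sdiff_le C T) hne
  have h1 := ih (WithTop V) (ext G T) (eset C) (by rw [card_eset]; exact hn)
    (ind_eset hC hlt) k
  unfold LI at h1
  rw [card_eset, al_eset hlt] at h1
  have h2 := ed_eset_le (G := G) (X := T) (C := C)
  have h3 : (k + 1) * (C.card + 1) = (k + 1) * C.card + k + 1 := by ring
  omega

/-- some `A \ {x}` is decomposable -/
theorem stepD {n k : ℕ} (ih : IH.{u} n) {A : Finset V} (hA : Ind G A) (hn : A.card = n)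
    (h2 : 2 ≤ n) {x : V} (hx : x ∈ A) (hx' : ¬ Ind G (A \ {x})) : LI G A k := by
  classical
  have hc : (A \ {x}).card + 1 = A.card := by
    have h3 := card_sdiff_add_card_eq_card (singleton_subset_iff.2 hx)
    rwa [card_singleton] at h3
  have hal := hA.av1 (by omega) hx
  obtain ⟨P, hP⟩ := exists_dec (G := G) (A \ {x})
  have hqc : ∀ q ∈ P, q.card + 1 < n := by
    intro q hq
    have h3 : q ≠ A \ {x} := fun h => hx' (h ▸ hP.ind q hq)
    have h4 := card_lt_card (Finset.ssubset_iff_subset_ne.2 ⟨hP.sub hq, h3⟩)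
    omega
  have hne : (A \ {x}).Nonempty := by
    rw [← card_pos]
    omega
  have hkey := keyW (fun q => (k + 1) * q.card - ((ed G q).card + bb k * al G q)) hA
    (singleton_subset_iff.2 hx) (singleton_nonempty x)
    (by rw [card_singleton, hal]) hne hP (by
      intro q hq T hT hTc
      by_cases h0 : T.card = 0
      · rw [card_eq_zero.1 h0, sdiff_empty]
      · refine avoid_of (k := k) ih (hP.ind q hq) (hqc q hq) ?_
        omega)
  have h3 : ∑ q ∈ P, (k + 1) * q.card ≤
      ∑ q ∈ P, (((k + 1) * q.card - ((ed G q).card + bb k * al G q)) +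
        (ed G q).card + bb k * al G q) := by
    refine sum_le_sum fun q _ => ?_
    omega
  rw [sum_add_distrib, sum_add_distrib, ← mul_sum, ← mul_sum, hP.sum] at h3
  have h4 : ∑ q ∈ P, q.card = (A \ {x}).card := by
    have h5 := card_biUnion (s := P) (t := id) (fun q hq r hr hne => hP.disj q hq r hr hne)
    rw [hP.un] at h5
    rw [h5]
    rfl
  have h5 : (P.biUnion (ed G)).card = ∑ q ∈ P, (ed G q).card := by
    refine card_biUnion (fun q hq r hr hne => ?_)
    change Disjoint (ed G q) (ed G r)
    rw [Finset.disjoint_left]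
    intro f hf hf'
    rw [mem_ed] at hf hf'
    exact Finset.disjoint_left.1 (hP.disj q hq r hr hne) hf.1.1 hf'.1.1
  have h6 : P.biUnion (ed G) ⊆ ed G A := by
    intro f hf
    rw [mem_biUnion] at hf
    obtain ⟨q, hq, hf⟩ := hf
    exact ed_mono ((hP.sub hq).trans sdiff_subset) hf
  have h7 := card_sdiff_add_card_eq_card h6
  unfold LI
  rw [h4, hal] at h3
  have h8 : (k + 1) * A.card = (k + 1) * (A \ {x}).card + k + 1 := by
    rw [← hc]
    ring
  omega

/-- all `A \ {x}` are indecomposable -/
theorem stepI {n k : ℕ} (ih : IH.{u} n) {A : Finset V} (hA : Ind G A) (hn : A.card = n)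
    (h2 : 2 ≤ n) (hall : ∀ x ∈ A, Ind G (A \ {x})) (hk : k * al G A + al G A + 2 ≤ n) :
    LI G A (k + 1) := by
  classical
  by_contra hneg
  have hav : ∀ x ∈ A, al G (A \ {x}) = al G A := fun x hx => hA.av1 (by omega) hx
  have hcx : ∀ x ∈ A, (A \ {x}).card + 1 = A.card := by
    intro x hx
    have h3 := card_sdiff_add_card_eq_card (singleton_subset_iff.2 hx)
    rwa [card_singleton] at h3
  have hLx : ∀ x ∈ A, (k + 2) * (A \ {x}).card ≤ (ed G (A \ {x})).card +
      bb (k + 1) * al G A + (k + 1) := by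
    intro x hx
    have h3 := ih V G (A \ {x}) (by have := hcx x hx; omega) (hall x hx) (k + 1)
    unfold LI at h3
    rwa [hav x hx] at h3
  have hneg' : (ed G A).card + bb (k + 1) * al G A + (k + 1) < (k + 2) * A.card := by
    unfold LI at hneg
    exact lt_of_not_ge hneg
  have hmul : ∀ x ∈ A, (k + 2) * A.card = (k + 2) * (A \ {x}).card + (k + 2) := by
    intro x hx
    rw [← hcx x hx]
    ring
  have hdeg : ∀ x ∈ A, (nb G A x).card ≤ k + 1 := by
    intro x hx
    have h3 := hLx x hx
    have h4 := ed_sdiff_singleton (G := G) hx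
    have h5 := hmul x hx
    omega
  obtain ⟨M, hM, hMi, hMc⟩ := exists_al (G := G) A
  have hsum := sum_max hM hMi hMc
  obtain ⟨x0, hx0, hd0⟩ : ∃ x0 ∈ M, k + 1 ≤ (nb G A x0).card := by
    by_contra hcon
    push Not at hcon
    have h3 : ∑ u ∈ M, (nb G A u).card ≤ ∑ _u ∈ M, k :=
      sum_le_sum fun u hu => by have := hcon u hu; omega
    rw [sum_const, smul_eq_mul, hMc, mul_comm] at h3
    omega
  have hx0A := hM hx0
  have h3 := hLx x0 hx0A
  have h4 := ed_sdiff_singleton (G := G) hx0A
  have h5 := hmul x0 hx0A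
  have h6 : e2 G A ≤ (k + 1) * A.card := by
    rw [e2_eq]
    refine (sum_le_sum fun x hx => hdeg x hx).trans ?_
    rw [sum_const, smul_eq_mul, mul_comm]
  rw [e2_ed] at h6
  rcases Nat.eq_zero_or_pos k with h0 | h0
  · -- degrees at most one
    subst h0
    obtain ⟨y, hy⟩ : (nb G A x0).Nonempty := by
      rw [← card_pos]
      omega
    rw [mem_nb] at hy
    have hyx : y ≠ x0 := fun h => by
      rw [h] at hy
      exact hy.2.ne rfl
    have hI := hall y hy.1
    have hx0y : x0 ∈ A \ {y} := mem_sdiff.2 ⟨hx0A, by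
      rw [mem_singleton]
      exact fun h => hyx h.symm⟩
    have h7 := hI.2 {x0} (singleton_subset_iff.2 hx0y) (singleton_nonempty x0) (by
      intro h8
      have h9 := hcx y hy.1
      rw [← h8, card_singleton] at h9
      have h10 := al_pos (G := G) hA.1
      omega)
    rw [al_singleton] at h7
    obtain ⟨I, hI1, hI2, hI3⟩ := exists_al (G := G) ((A \ {y}) \ {x0})
    have hx0I : x0 ∉ I := fun h => (mem_sdiff.1 (hI1 h)).2 (mem_singleton_self _)
    have h8 : G.IsIndepSet ((insert x0 I : Finset V) : Set V) := by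
      refine indep_insert hI2 fun z hz hadj => ?_
      have hz' := hI1 hz
      rw [mem_sdiff, mem_sdiff, mem_singleton, mem_singleton] at hz'
      have h9 : ({y, z} : Finset V) ⊆ nb G A x0 := by
        intro v hv
        rw [mem_insert, mem_singleton] at hv
        rcases hv with rfl | rfl
        · exact mem_nb.2 hy
        · exact mem_nb.2 ⟨hz'.1.1, hadj⟩
      have h10 := card_le_card h9
      rw [card_pair (fun h => hz'.1.2 h.symm)] at h10
      have h11 := hdeg x0 hx0A
      omega
    have h9 := le_al (X := A \ {y}) (insert_subset hx0y (hI1.trans sdiff_subset)) h8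
    rw [card_insert_of_notMem hx0I] at h9
    omega
  · -- the count
    have hb := two_bb (k + 1)
    have hap := al_pos (G := G) hA.1
    have e1 : (2 * bb (k + 1)) * al G A = ((k + 1) * (k + 1) + (k + 1) + 2) * al G A := by
      rw [hb]
    have h7 : (k + 3) * A.card ≤ 2 * (k + 2) + ((k + 1) * (k + 1) + (k + 1) + 2) * al G A := by
      have e2 : 2 * ((k + 2) * A.card) = (k + 1) * A.card + (k + 3) * A.card := by ring
      have e3 : (2 * bb (k + 1)) * al G A = 2 * (bb (k + 1) * al G A) := by ring
      omega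
    have h8 : (k + 3) * (k * al G A + al G A + 2) ≤ (k + 3) * A.card :=
      Nat.mul_le_mul_left _ (hn ▸ hk)
    have h9 : (k + 3) * (k * al G A + al G A + 2) + 2 * al G A =
        ((k + 1) * (k + 1) + (k + 1) + 2) * al G A + k * al G A + al G A + 2 * (k + 3) := by
      ring
    have h10 : 1 * al G A ≤ k * al G A := Nat.mul_le_mul_right _ h0
    omega

theorem lemL_step {n : ℕ} (ih : IH.{u} n) {A : Finset V} (hA : Ind G A) (hn : A.card = n)
    (k : ℕ) : LI G A k := by
  rcases Nat.lt_or_ge n 2 with h1 | h2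
  · have h3 : A.card = 1 := by
      have := hA.1.card_pos
      omega
    have h4 := al_pos (G := G) hA.1
    unfold LI
    rw [h3]
    have h5 : bb k * 1 ≤ bb k * al G A := Nat.mul_le_mul_left _ h4
    have h6 := two_bb k
    have h7 : 0 ≤ k * k := Nat.zero_le _
    omega
  by_cases hall : ∀ x ∈ A, Ind G (A \ {x})
  · induction k with
    | zero =>
      unfold LI
      rw [bb_zero]
      have := base0 (G := G) A
      omega
    | succ k ihk =>
      rcases Nat.lt_or_ge n (k * al G A + al G A + 2) with h3 | h3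
      · unfold LI at ihk ⊢
        rw [bb_succ]
        have e1 : (k + 1 + 1) * A.card = (k + 1) * A.card + A.card := by ring
        have e2 : (bb k + (k + 1)) * al G A = bb k * al G A + (k * al G A + al G A) := by ring
        omega
      · exact stepI ih hA hn h2 hall h3
  · push Not at hall
    obtain ⟨x, hx, hx'⟩ := hall
    exact stepD ih hA hn h2 hx hx'

end

theorem lemL_all (n : ℕ) : IH.{u} n := by
  induction n using Nat.strong_induction_on with
  | _ n ih =>
    intro V _ G _ A hAn hA k
    exact lemL_step (ih A.card hAn) hA rfl k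

/-- LEMMA L: an indecomposable vertex set has `e ≥ (k+1) n - b_k α - k` -/
theorem lemL {V : Type u} [LinearOrder V] (G : SimpleGraph V) [DecidableRel G.Adj]
    {A : Finset V} (hA : Ind G A) (k : ℕ) :
    2 * (k + 1) * A.card ≤ e2 G A + (k * k + k + 2) * al G A + 2 * k := by
  have h1 := lemL_all.{u} (A.card + 1) V G A (Nat.lt_succ_self _) hA k
  unfold LI at h1
  rw [e2_ed, ← two_bb]
  have e1 : 2 * (k + 1) * A.card = 2 * ((k + 1) * A.card) := by ring
  have e2 : 2 * bb k * al G A = 2 * (bb k * al G A) := by ring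
  omega

/-- LEMMA L on `Fin m` -/
theorem lemL_fin (k m : ℕ) (G : SimpleGraph (Fin m)) [DecidableRel G.Adj] (A : Finset (Fin m))
    (hA : Ind G A) :
    2 * (k + 1) * A.card ≤ e2 G A + (k ^ 2 + k + 2) * al G A + 2 * k := by
  have h := lemL G hA k
  rw [sq]
  exact h

end Pool.Agent.TwoDens.K3K
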