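import Pool.Agent.TKS.Defs
import Pool.Agent.TwoDens.Bridge

/-!
From the decomposition into indecomposable sets to lower bounds for `M(2 s + i, s + 1)`.
-/

open Finset

namespace Pool.Agent.TwoDens.K3

open Pool.Agent.TwoDens Pool.Agent.TwoDens.RK Pool.Agent.TwoDens.DD Pool.Agent.TwoDens.TS

/-- The statement of the decomposition theorem which is used below. -/
def KThm (m : ℕ) : Prop :=
  ∀ (G : SimpleGraph (Fin m)) [DecidableRel G.Adj] (Y : Finset (Fin m)),
    ∃ P : Finset (Finset (Fin m)), (∀ A ∈ P, ∀ B ∈ P, A ≠ B → Disjoint A B) ∧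
      P.biUnion id = Y ∧ (∑ A ∈ P, al G A = al G Y) ∧
      ∀ A ∈ P, 1 ≤ A.card ∧ 6 * A.card ≤ e2 G A + 8 * al G A + 4

/-- lower bounds by linear certificates -/
theorem cert {s i A B : ℕ} {D : ℝ} (hs : 1 ≤ s) (hK : KThm (2 * s + i))
    (hD : ∀ d a : ℕ, 1 ≤ d → 1 ≤ a →
      (2 * (a : ℝ) + 3 * d - 3) < D * (2 * (a : ℝ) + d - 2) → A * d ≤ B * a)
    (hlt : B * s < A * i) : D ≤ minTwoDensity (2 * s + i) (s + 1) := by
  refine le_minTwoDensity (by omega) ?_
  intro G _ hα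
  by_contra hcon
  push Not at hcon
  have hn : (Finset.univ : Finset (Fin (2 * s + i))).card = 2 * s + i := by
    rw [Finset.card_univ, Fintype.card_fin]
  have hal : al G Finset.univ ≤ s := al_le (fun I _ hI => by
    have := hα I hI
    omega)
  obtain ⟨P, hP, hU, hsum, hA⟩ := hK G Finset.univ
  have h1 : ∀ X ∈ P, (A : ℤ) * ((X.card : ℤ) - 2 * al G X) ≤ B * al G X := by
    intro X hX
    obtain ⟨hne, he⟩ := hA X hX
    have ha := al_pos (G := G) (card_pos.1 hne)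
    rcases Nat.lt_or_ge (2 * al G X) X.card with h2 | h2
    · obtain ⟨d, hd⟩ : ∃ d, X.card = 2 * al G X + d := ⟨X.card - 2 * al G X, by omega⟩
      have h3 := hcon X (by omega)
      have h4 : 6 * (X.card : ℝ) ≤ e2 G X + 8 * al G X + 4 := by exact_mod_cast he
      have h5 : (X.card : ℝ) = 2 * al G X + d := by exact_mod_cast hd
      rw [h5] at h3 h4
      have h6 := hD d (al G X) (by omega) ha (by linarith)
      have h7 : (A : ℤ) * d ≤ B * al G X := by exact_mod_cast h6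
      have h8 : (X.card : ℤ) - 2 * al G X = d := by
        have : (X.card : ℤ) = 2 * al G X + d := by exact_mod_cast hd
        linarith
      rw [h8]
      exact h7
    · have h3 : (X.card : ℤ) - 2 * al G X ≤ 0 := by
        have : (X.card : ℤ) ≤ 2 * al G X := by exact_mod_cast h2
        linarith
      have h4 : (A : ℤ) * ((X.card : ℤ) - 2 * al G X) ≤ 0 :=
        mul_nonpos_of_nonneg_of_nonpos (Int.natCast_nonneg _) h3
      have h5 : (0 : ℤ) ≤ B * al G X := mul_nonneg (Int.natCast_nonneg _) (Int.natCast_nonneg _)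
      linarith
  have h2 : ∑ X ∈ P, (A : ℤ) * ((X.card : ℤ) - 2 * al G X) ≤ ∑ X ∈ P, (B : ℤ) * al G X :=
    sum_le_sum h1
  rw [← mul_sum, ← mul_sum, sum_sub_distrib, ← mul_sum] at h2
  have h3 : ∑ X ∈ P, X.card = 2 * s + i := by
    have h0 : (P.biUnion id).card = ∑ X ∈ P, X.card :=
      card_biUnion (fun A hA B hB h => hP A hA B hB h)
    rw [hU] at h0
    exact h0.symm.trans hn
  have h4 : ∑ X ∈ P, (X.card : ℤ) = 2 * s + i := by exact_mod_cast h3
  have h5 : ∑ X ∈ P, (al G X : ℤ) = al G Finset.univ := by exact_mod_cast hsum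
  rw [h4, h5] at h2
  have h6 : (al G Finset.univ : ℤ) ≤ s := by exact_mod_cast hal
  have h7 : (A : ℤ) * (i : ℤ) ≤ B * s := by
    have h8 : (B : ℤ) * al G Finset.univ ≤ B * s :=
      mul_le_mul_of_nonneg_left h6 (Int.natCast_nonneg _)
    have h9 : (A : ℤ) * i ≤ A * (2 * s + i - 2 * al G Finset.univ) :=
      mul_le_mul_of_nonneg_left (by linarith) (Int.natCast_nonneg _)
    linarith
  have h8 : A * i ≤ B * s := by exact_mod_cast h7
  omega

/-- the lower bound for `3 i ≤ s` -/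
theorem lowerA (s i : ℕ) (hi : 1 ≤ i) (h : 3 * i ≤ s) (hK : KThm (2 * s + i)) :
    2 * ((s / i : ℕ) : ℝ) / (2 * ((s / i : ℕ) : ℝ) - 1) ≤ minTwoDensity (2 * s + i) (s + 1) := by
  obtain ⟨l, hl⟩ : ∃ l, l = s / i := ⟨_, rfl⟩
  rw [← hl]
  have hl3 : 3 ≤ l := by
    rw [hl]
    exact (Nat.le_div_iff_mul_le hi).2 h
  have hlt : s < (l + 1) * i := by
    rw [hl]
    have h1 := Nat.div_add_mod s i
    have h2 := Nat.mod_lt s hi
    have h3 : (s / i + 1) * i = i * (s / i) + i := by ring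
    omega
  have hlR : (3 : ℝ) ≤ l := by exact_mod_cast hl3
  have hpos : (0 : ℝ) < 2 * (l : ℝ) - 1 := by linarith
  refine cert (A := l + 1) (B := 1) (by omega) hK ?_ (by omega)
  intro d a hd ha h1
  have h2 : (2 * (l : ℝ) - 1) * (2 * (a : ℝ) + 3 * d - 3) < 2 * l * (2 * (a : ℝ) + d - 2) := by
    have h3 := mul_lt_mul_of_pos_left h1 hpos
    rwa [← mul_assoc, mul_div_cancel₀ _ hpos.ne'] at h3
  have h3 : (2 * (l : ℤ) - 1) * (2 * (a : ℤ) + 3 * d - 3) < 2 * l * (2 * (a : ℤ) + d - 2) := by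
    exact_mod_cast h2
  have hl' : (3 : ℤ) ≤ l := by exact_mod_cast hl3
  have hd' : (1 : ℤ) ≤ d := by exact_mod_cast hd
  have h4 : (2 * (l : ℤ) - 1) * (2 * d - 1) < 2 * a + d - 2 := by linarith
  have h5 : 0 ≤ ((l : ℤ) - 3) * ((d : ℤ) - 1) := mul_nonneg (by linarith) (by linarith)
  have h6 : 2 * (((l : ℤ) + 1) * d) < 2 * a + 1 + 1 := by nlinarith
  have h7 : ((l : ℤ) + 1) * d ≤ a := by omega
  have h8 : (l + 1) * d ≤ a := by exact_mod_cast h7
  omega

/-- the lower bound for `s < 3 i`, `2 i ≤ s` -/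
theorem lowerB (s i : ℕ) (h1 : s < 3 * i) (h2 : 2 * i ≤ s) (hK : KThm (2 * s + i)) :
    (9 * ((i / (3 * i - s) : ℕ) : ℝ) - 5) / (7 * ((i / (3 * i - s) : ℕ) : ℝ) - 4) ≤
      minTwoDensity (2 * s + i) (s + 1) := by
  obtain ⟨j, hj⟩ : ∃ j, j = 3 * i - s := ⟨_, rfl⟩
  have hj1 : 1 ≤ j := by omega
  rw [← hj]
  obtain ⟨q, hq⟩ : ∃ q, q = i / j := ⟨_, rfl⟩
  rw [← hq]
  have hq1 : 1 ≤ q := by
    rw [hq]
    exact (Nat.le_div_iff_mul_le hj1).2 (by omega)
  have hlt : i < (q + 1) * j := by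
    rw [hq]
    have h1 := Nat.div_add_mod i j
    have h2 := Nat.mod_lt i hj1
    have h3 : (i / j + 1) * j = j * (i / j) + j := by ring
    omega
  have hqR : (1 : ℝ) ≤ q := by exact_mod_cast hq1
  have hpos : (0 : ℝ) < 7 * (q : ℝ) - 4 := by linarith
  refine cert (A := 3 * q + 2) (B := q + 1) (by omega) hK ?_ ?_
  · intro d a hd ha h3
    have h4 : (7 * (q : ℝ) - 4) * (2 * (a : ℝ) + 3 * d - 3) <
        (9 * q - 5) * (2 * (a : ℝ) + d - 2) := by
      have h5 := mul_lt_mul_of_pos_left h3 hpos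
      rwa [← mul_assoc, mul_div_cancel₀ _ hpos.ne'] at h5
    have h5 : (7 * (q : ℤ) - 4) * (2 * (a : ℤ) + 3 * d - 3) <
        (9 * q - 5) * (2 * (a : ℤ) + d - 2) := by exact_mod_cast h4
    have hq' : (1 : ℤ) ≤ q := by exact_mod_cast hq1
    have hd' : (1 : ℤ) ≤ d := by exact_mod_cast hd
    obtain ⟨h, hh⟩ : ∃ h : ℤ, h = 3 * d - a := ⟨_, rfl⟩
    have ha' : (a : ℤ) = 3 * d - h := by linarith
    rw [ha'] at h5
    have h6 : (4 * (q : ℤ) - 2) * h - 3 * q + 2 < d := by linarith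
    have h7 : ((q : ℤ) + 1) * h ≤ d := by
      rcases le_or_gt h 0 with h8 | h8
      · have h9 : ((q : ℤ) + 1) * h ≤ 0 :=
          mul_nonpos_of_nonneg_of_nonpos (by linarith) h8
        linarith
      · have h9 : 0 ≤ ((q : ℤ) - 1) * (h - 1) := mul_nonneg (by linarith) (by linarith)
        have h10 : (4 * (q : ℤ) - 2) * h - 3 * q + 2 + 1 ≤ d := by linarith
        linarith
    have h8 : (3 * (q : ℤ) + 2) * d ≤ (q + 1) * a := by
      rw [ha']
      linarith
    exact_mod_cast h8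
  · have h3 : (q + 1) * j + (q + 1) * s = (q + 1) * (3 * i) := by
      rw [← mul_add]
      congr 1
      omega
    have h4 : (q + 1) * (3 * i) = (3 * q + 2) * i + i := by ring
    omega

end Pool.Agent.TwoDens.K3
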