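import Pool.Agent.K3K.KL
import Pool.Agent.TwoDens.Bridge

/-!
The lower bound for `M(2 s + i, s + 1)`, `3 i ≤ 2 s`, as a minimum over `1 ≤ d ≤ i`.
-/

open Finset

namespace Pool.Agent.TwoDens.K3K

open Pool.Agent.TwoDens Pool.Agent.TwoDens.RK Pool.Agent.TwoDens.DD Pool.Agent.TwoDens.TS

/-- the 2-density of a tight graph of defect `d` with `a = ⌊d s / i⌋` -/
noncomputable def fS (s i d : ℕ) : ℝ :=
  1 + (2 * (d : ℝ) - 1) / (2 * ((d * s / i : ℕ) : ℝ) + d - 2)

theorem le_div_self' {s i d : ℕ} (hi : 1 ≤ i) (h : i ≤ s) : d ≤ d * s / i := by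
  rw [Nat.le_div_iff_mul_le hi]
  exact Nat.mul_le_mul_left d h

theorem le_fS {s i d : ℕ} {c : ℝ} (hi : 1 ≤ i) (h : i ≤ s) (hd : 1 ≤ d) :
    c ≤ fS s i d ↔ (c - 1) * (2 * ((d * s / i : ℕ) : ℝ) + d - 2) ≤ 2 * (d : ℝ) - 1 := by
  have h1 : (d : ℝ) ≤ ((d * s / i : ℕ) : ℝ) := by exact_mod_cast le_div_self' hi h
  have h2 : (1 : ℝ) ≤ d := by exact_mod_cast hd
  have h3 : (0 : ℝ) < 2 * ((d * s / i : ℕ) : ℝ) + d - 2 := by linarith
  unfold fS
  rw [← sub_le_iff_le_add', le_div_iff₀ h3]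

/-- the bound for `d ≤ i` gives the bound for all `d` -/
theorem ext {s i : ℕ} {c : ℝ} (hi : 1 ≤ i) (h : 3 * i ≤ 2 * s)
    (hc : ∀ d, 1 ≤ d → d ≤ i → c ≤ fS s i d) (d : ℕ) (hd : 1 ≤ d) : c ≤ fS s i d := by
  have his : i ≤ s := by omega
  induction d using Nat.strong_induction_on with
  | _ d ih =>
    rcases Nat.lt_or_ge i d with hlt | hle
    · obtain ⟨e, rfl⟩ : ∃ e, d = e + i := ⟨d - i, by omega⟩
      have h1 := (le_fS hi his (by omega)).1 (ih e (by omega) (by omega))
      have h2 := (le_fS hi his hi).1 (hc i hi le_rfl)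
      rw [le_fS hi his hd]
      have h3 : (e + i) * s / i = e * s / i + s := by
        rw [add_mul, mul_comm i s, Nat.add_mul_div_right _ _ hi]
      have h4 : i * s / i = s := Nat.mul_div_cancel_left s hi
      rw [h4] at h2
      rw [h3]
      have hiR : (1 : ℝ) ≤ i := by exact_mod_cast hi
      have hR : 3 * (i : ℝ) ≤ 2 * s := by exact_mod_cast h
      have h5 : (c - 1) * 2 ≤ 1 := by
        by_contra hcon
        push Not at hcon
        nlinarith
      push_cast
      nlinarith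
    · exact hc d hd hle

theorem lowerS (s i : ℕ) (hi : 1 ≤ i) (h : 3 * i ≤ 2 * s) {c : ℝ}
    (hc : ∀ d, 1 ≤ d → d ≤ i → c ≤ fS s i d) : c ≤ minTwoDensity (2 * s + i) (s + 1) := by
  have his : i ≤ s := by omega
  refine le_minTwoDensity (by omega) ?_
  intro G _ hα
  have hn : (Finset.univ : Finset (Fin (2 * s + i))).card = 2 * s + i := by
    rw [Finset.card_univ, Fintype.card_fin]
  have hal : al G Finset.univ ≤ s := al_le (fun I _ hI => by
    have := hα I hI
    omega)
  obtain ⟨P, hP, hU, hsum, hA⟩ := lemK G Finset.univ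
  have h3 : ∑ X ∈ P, X.card = 2 * s + i := by
    have h0 : (P.biUnion id).card = ∑ X ∈ P, X.card :=
      card_biUnion (fun A hA B hB h => hP A hA B hB h)
    rw [hU] at h0
    exact h0.symm.trans hn
  have hPn : P.Nonempty := by
    rw [nonempty_iff_ne_empty]
    rintro rfl
    rw [sum_empty] at h3
    omega
  obtain ⟨X, hX, hX1, hX2⟩ : ∃ X ∈ P, 2 * al G X + 1 ≤ X.card ∧
      al G X * i ≤ (X.card - 2 * al G X) * s := by
    by_contra hcon
    push Not at hcon
    have h4 : ∀ X ∈ P, ((X.card : ℤ) - 2 * al G X) * s < (al G X : ℤ) * i := by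
      intro X hX
      have ha := al_pos (G := G) (card_pos.1 (hA X hX).1)
      have h5 : 1 ≤ al G X * i := Nat.mul_pos ha hi
      have h6 : (1 : ℤ) ≤ al G X * i := by exact_mod_cast h5
      rcases Nat.lt_or_ge (2 * al G X) X.card with h7 | h7
      · have h8 := hcon X hX h7
        obtain ⟨d, hd⟩ : ∃ d, X.card = 2 * al G X + d := ⟨X.card - 2 * al G X, by omega⟩
        have h9 : X.card - 2 * al G X = d := by omega
        rw [h9] at h8
        have h10 : (X.card : ℤ) - 2 * al G X = d := by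
          have : (X.card : ℤ) = 2 * al G X + d := by exact_mod_cast hd
          linarith
        rw [h10]
        exact_mod_cast h8
      · have h8 : (X.card : ℤ) - 2 * al G X ≤ 0 := by
          have : (X.card : ℤ) ≤ 2 * al G X := by exact_mod_cast h7
          linarith
        have h9 : ((X.card : ℤ) - 2 * al G X) * s ≤ 0 :=
          mul_nonpos_of_nonpos_of_nonneg h8 (Int.natCast_nonneg _)
        linarith
    have h5 : ∑ X ∈ P, ((X.card : ℤ) - 2 * al G X) * s < ∑ X ∈ P, (al G X : ℤ) * i :=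
      sum_lt_sum_of_nonempty hPn h4
    rw [← sum_mul, ← sum_mul, sum_sub_distrib, ← mul_sum] at h5
    have h6 : ∑ X ∈ P, (X.card : ℤ) = 2 * s + i := by exact_mod_cast h3
    have h7 : ∑ X ∈ P, (al G X : ℤ) = al G Finset.univ := by exact_mod_cast hsum
    rw [h6, h7] at h5
    have h8 : (al G Finset.univ : ℤ) ≤ s := by exact_mod_cast hal
    have h9 : (i : ℤ) * s ≤ (2 * s + i - 2 * al G Finset.univ) * s :=
      mul_le_mul_of_nonneg_right (by linarith) (Int.natCast_nonneg _)
    have h10 : (al G Finset.univ : ℤ) * i ≤ s * i :=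
      mul_le_mul_of_nonneg_right h8 (Int.natCast_nonneg _)
    linarith
  obtain ⟨d, hd⟩ : ∃ d, X.card = 2 * al G X + d := ⟨X.card - 2 * al G X, by omega⟩
  have hd1 : 1 ≤ d := by omega
  have ha := al_pos (G := G) (card_pos.1 (hA X hX).1)
  have h4 : al G X ≤ d * s / i := by
    rw [Nat.le_div_iff_mul_le hi]
    have h5 : X.card - 2 * al G X = d := by omega
    rwa [h5] at hX2
  refine ⟨X, by omega, ?_⟩
  have h5 := (le_fS hi his hd1).1 (ext hi h hc d hd1)
  have h6 : 6 * (X.card : ℝ) ≤ e2 G X + 8 * al G X + 4 := by exact_mod_cast (hA X hX).2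
  have h7 : (X.card : ℝ) = 2 * al G X + d := by exact_mod_cast hd
  have h8 : (al G X : ℝ) ≤ ((d * s / i : ℕ) : ℝ) := by exact_mod_cast h4
  have h9 : (1 : ℝ) ≤ al G X := by exact_mod_cast ha
  have h10 : (1 : ℝ) ≤ d := by exact_mod_cast hd1
  rw [h7] at h6 ⊢
  have h11 : (c - 1) * (2 * (al G X : ℝ) + d - 2) ≤ 2 * d - 1 := by
    rcases le_or_gt 0 (c - 1) with h12 | h12
    · exact (mul_le_mul_of_nonneg_left (by linarith) h12).trans h5
    · have h13 : (c - 1) * (2 * (al G X : ℝ) + d - 2) ≤ 0 :=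
        mul_nonpos_of_nonpos_of_nonneg h12.le (by linarith)
      linarith
  linarith

end Pool.Agent.TwoDens.K3K
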